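import Pool.Agent.R900.BS.Defs
import Pool.Agent.TH137.DG.Schur

/-!
# Motives of varieties in a triangulated category, and Schur-finiteness
-/

set_option autoImplicit false

namespace Pool.Agent.R900.SF

open CategoryTheory MonoidalCategory Pool.Agent.TH137.DG Pool.Agent.R900.BS

universe v u

/-- The motives `M X` (used for smooth `X`) and the motives with compact support `Mc X` of the varieties
over a perfect field `k`, and the Lefschetz object `L = ℚ(1)[2]`. -/
structure Motives (S : Type) (C : Type u) where
  M : S → C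
  Mc : S → C
  L : C

/-- `L ⊗ (L ⊗ ⋯ (L ⊗ A))`, with `n` factors `L` -/
@[reducible] def tw {C : Type u} [Category.{v} C] [MonoidalCategory C] (L : C) : ℕ → C → C
  | 0, A => A
  | n + 1, A => L ⊗ tw L n A

variable {S : Type} {C : Type u} [Category.{v} C] [MonoidalCategory C]
  [SymmetricCategory C] [Preadditive C] [Linear ℚ C] [Limits.HasZeroObject C] [HasShift C ℤ]
  [∀ n : ℤ, (shiftFunctor C n).Additive] [Pretriangulated C]

/-- `X` is a direct summand of the sum of the objects `A j`. -/
def IsSummand {e : ℕ} (X : C) (A : Fin e → C) : Prop :=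
  ∃ (s : ∀ j, X ⟶ A j) (r : ∀ j, A j ⟶ X), ∑ j, s j ≫ r j = 𝟙 X

/-- The properties of Schur-finite objects that are used: the two-out-of-three property in distinguished
triangles (Guletskii, Mazza), and stability under shifts, Tate twists, sums and direct summands. -/
structure IsClosed (L : C) : Prop where
  cone : ∀ T ∈ Pretriangulated.distinguishedTriangles (C := C), IsSchurFinite T.obj₁ →
    IsSchurFinite T.obj₂ → IsSchurFinite T.obj₃
  shift : ∀ (A : C) (n : ℤ), IsSchurFinite A → IsSchurFinite (A⟦n⟧)
  twist : ∀ A : C, IsSchurFinite A → IsSchurFinite (L ⊗ A)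
  summand : ∀ (X : C) (e : ℕ) (A : Fin e → C), (∀ j, IsSchurFinite (A j)) → IsSummand X A →
    IsSchurFinite X

/-- The triangle `Mc Z → Mc X → Mc U → Mc Z[1]`. -/
def HasTriangle (D : Motives S C) (Z X U : S) : Prop :=
  ∃ (a : D.Mc Z ⟶ D.Mc X) (b : D.Mc X ⟶ D.Mc U) (d : D.Mc U ⟶ (D.Mc Z)⟦(1 : ℤ)⟧),
    Pretriangulated.Triangle.mk a b d ∈ Pretriangulated.distinguishedTriangles (C := C)

/-- For a curve `X → V` with section `s` let `iota` and `rho` be given by the closed immersion
`x ↦ x + (N - 1) s` into `P = Sym^N X` and by the correspondence of all `(D, x)`, `x` in `D`, and let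
`pi`, `sigma` be the direct images for `X → V` and `s`; then
`rho ∘ iota = 1 + (N - 1) sigma ∘ pi`. -/
def CurveFormula (D : Motives S C) (N : ℕ) (X V P : S) : Prop :=
  ∃ (iota : D.Mc X ⟶ D.Mc P) (rho : D.Mc P ⟶ D.Mc X) (pi : D.Mc X ⟶ D.Mc V)
    (sigma : D.Mc V ⟶ D.Mc X), iota ≫ rho = 𝟙 _ + (N - 1) • (pi ≫ sigma)

/-- The properties of motives that are used (all known; Voevodsky, Kelly).

`smooth`: `IsSmooth` is the class of smooth varieties; it contains the Jacobians. `duality`: for smooth `X` the
object `Mc X` is, up to Tate twists, the dual of `M X`. `empty`: `Mc ∅ = 0`. `loc`: localization triangles.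
`cover`: for a finite covering `U' → U` the object `Mc U` is a direct summand of `Mc U'`. `curve`: see
`CurveFormula`. `bundle`: `P` is the projective bundle of a vector bundle of rank `N - g + 1` over `J`. -/
structure IsMotives (G : Varieties S) (IsSmooth : S → Prop) (D : Motives S C) : Prop where
  smooth : ∀ J, Jacobian G J → IsSmooth J
  duality : ∀ X, IsSmooth X → (IsSchurFinite (D.M X) ↔ IsSchurFinite (D.Mc X))
  empty : ∀ X, G.Empty X → IsSchurFinite (D.Mc X)
  loc : ∀ Z X U, G.Cut Z X U → HasTriangle D Z X U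
  cover : ∀ U' U, G.Cover U' U → IsSummand (D.Mc U) fun _ : Fin 1 => D.Mc U'
  curve : ∀ g N X V P J, G.Curve g N X V P J → CurveFormula D N X V P
  bundle : ∀ g N X V P J, G.Curve g N X V P J →
    IsSummand (D.Mc P) fun k : Fin (N - g + 1) => tw D.L k (D.Mc J)

/-- `M X` is Schur-finite for all smooth `X` if and only if `M J` is Schur-finite for all Jacobians `J`. -/
def JacobiansDecide (G : Varieties S) (IsSmooth : S → Prop) (D : Motives S C) : Prop :=
  (∀ X, IsSmooth X → IsSchurFinite (D.M X)) ↔ ∀ J, Jacobian G J → IsSchurFinite (D.M J)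

/-- Let `d ≥ 1`. If `M J` is Schur-finite for all Jacobians over bases of dimension less than `d` then
`Mc X`, and `M X` if `X` is smooth, is Schur-finite for all `X` of dimension at most `d`. -/
def JacobiansDecideUpTo (G : Varieties S) (IsSmooth : S → Prop) (D : Motives S C) : Prop :=
  ∀ d, 1 ≤ d → (∀ J, JacobianBelow G d J → IsSchurFinite (D.M J)) → ∀ X, G.dim X ≤ d →
    IsSchurFinite (D.Mc X) ∧ (IsSmooth X → IsSchurFinite (D.M X))

end Pool.Agent.R900.SF
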