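import Pool.Agent.R900.SF.Defs

/-! # Reduction of the Schur-finiteness of motives to Jacobians -/

set_option autoImplicit false

namespace Pool.Agent.R900.SF

open CategoryTheory MonoidalCategory Pool.Agent.TH137.DG Pool.Agent.R900.BS

universe v u

variable {S : Type} {C : Type u} [Category.{v} C] [MonoidalCategory C]
  [SymmetricCategory C] [Preadditive C] [Linear ℚ C] [Limits.HasZeroObject C] [HasShift C ℤ]
  [∀ n : ℤ, (shiftFunctor C n).Additive] [Pretriangulated C] {G : Varieties S}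
  {IsSmooth : S → Prop} {D : Motives S C}

lemma sf_mid (hC : IsClosed D.L) (hD : IsMotives G IsSmooth D) {Z X U : S} (h : G.Cut Z X U)
    (hZ : IsSchurFinite (D.Mc Z)) (hU : IsSchurFinite (D.Mc U)) : IsSchurFinite (D.Mc X) := by
  obtain ⟨a, b, d, hT⟩ := hD.loc Z X U h
  exact hC.cone _ (Pretriangulated.inv_rot_of_distTriang _ hT) (hC.shift _ _ hU) hZ

lemma sf_open (hC : IsClosed D.L) (hD : IsMotives G IsSmooth D) {Z X U : S} (h : G.Cut Z X U)
    (hZ : IsSchurFinite (D.Mc Z)) (hX : IsSchurFinite (D.Mc X)) : IsSchurFinite (D.Mc U) := by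
  obtain ⟨a, b, d, hT⟩ := hD.loc Z X U h
  exact hC.cone _ hT hZ hX

lemma sf_cover (hC : IsClosed D.L) (hD : IsMotives G IsSmooth D) {U' U : S} (h : G.Cover U' U)
    (hU : IsSchurFinite (D.Mc U')) : IsSchurFinite (D.Mc U) :=
  hC.summand _ _ _ (fun _ => hU) (hD.cover U' U h)

lemma sf_tw (hC : IsClosed D.L) {A : C} (hA : IsSchurFinite A) (n : ℕ) :
    IsSchurFinite (tw D.L n A) := by
  induction n with
  | zero => exact hA
  | succ n ih => exact hC.twist _ ih

lemma sf_bundle (hC : IsClosed D.L) (hD : IsMotives G IsSmooth D) {g N : ℕ} {X V P J : S}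
    (h : G.Curve g N X V P J) (hJ : IsSchurFinite (D.Mc J)) : IsSchurFinite (D.Mc P) :=
  hC.summand _ _ _ (fun _ => sf_tw hC hJ _) (hD.bundle g N X V P J h)

lemma sf_curve (hC : IsClosed D.L) (hD : IsMotives G IsSmooth D) {g N : ℕ} {X V P J : S}
    (h : G.Curve g N X V P J) (hV : IsSchurFinite (D.Mc V)) (hP : IsSchurFinite (D.Mc P)) :
    IsSchurFinite (D.Mc X) := by
  obtain ⟨iota, rho, pi, sigma, hx⟩ := hD.curve g N X V P J h
  refine hC.summand (D.Mc X) 2 ![D.Mc P, D.Mc V] ?_ ?_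
  · intro j
    fin_cases j
    · exact hP
    · exact hV
  · refine ⟨Fin.cons iota (Fin.cons (-((N - 1) • pi)) fun i => i.elim0),
      Fin.cons rho (Fin.cons sigma fun i => i.elim0), ?_⟩
    rw [Fin.sum_univ_two]
    show iota ≫ rho + (-((N - 1) • pi)) ≫ sigma = 𝟙 _
    rw [hx, Preadditive.neg_comp, Preadditive.nsmul_comp]
    abel

theorem jacobiansDecideUpTo (hG : IsVarieties G) (hC : IsClosed D.L)
    (hD : IsMotives G IsSmooth D) : JacobiansDecideUpTo G IsSmooth D := by
  intro d hd1 hJ0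
  have hJ : ∀ J, JacobianBelow G d J → IsSchurFinite (D.Mc J) := fun J hJ' => by
    obtain ⟨g, N, X, V, P, h, _⟩ := id hJ'
    exact (hD.duality J (hD.smooth J ⟨g, N, X, V, P, h⟩)).1 (hJ0 J hJ')
  suffices hk : ∀ k, ∀ X, G.dim X < k → G.dim X ≤ d → IsSchurFinite (D.Mc X) from
    fun X hX => ⟨hk (G.dim X + 1) X (Nat.lt_succ_self _) hX, fun hs =>
      (hD.duality X hs).2 (hk (G.dim X + 1) X (Nat.lt_succ_self _) hX)⟩
  intro k
  induction k with
  | zero => exact fun X hX => absurd hX (Nat.not_lt_zero _)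
  | succ k ih =>
    intro X
    induction X using hG.noeth.induction with
    | _ X ihX =>
      intro hX hXd
      by_cases hE : G.Empty X
      · exact hD.empty X hE
      · obtain ⟨Z, U, hcut, hU, hgen⟩ := hG.generic X hE
        have hZ := hG.dim_le Z X U hcut
        refine sf_mid hC hD hcut (ihX Z ⟨U, hcut, hU⟩ (by omega) (by omega)) ?_
        rcases hgen with ⟨U', T, Y, V, P, J, g, N, hcov, hcut', hcurve, hY, hV, hT⟩ |
          ⟨N, Y, P, hc, h0⟩
        · have hY' := sf_curve hC hD hcurve (ih V (by omega) (by omega))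
            (sf_bundle hC hD hcurve (hJ J ⟨g, N, Y, V, P, hcurve, by omega⟩))
          refine sf_cover hC hD hcov (sf_open hC hD hcut' ?_ hY')
          rcases hT with hT | hT
          · exact hD.empty T hT
          · exact ih T (by omega) (by omega)
        · exact hJ U ⟨0, N, Y, U, P, hc, by omega⟩

theorem jacobiansDecide (hG : IsVarieties G) (hC : IsClosed D.L) (hD : IsMotives G IsSmooth D) :
    JacobiansDecide G IsSmooth D :=
  ⟨fun h J hJ => h J (hD.smooth J hJ), fun h X hX =>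
    (jacobiansDecideUpTo hG hC hD (G.dim X + 1) (by omega)
      (fun J ⟨g, N, Y, V, P, hJ, _⟩ => h J ⟨g, N, Y, V, P, hJ⟩) X (by omega)).2 hX⟩

end Pool.Agent.R900.SF
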